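import Pool.Agent.Lib.MP_788af2_nt.AG.Final

/-!
The analytic form of Goldfeld's conjecture for the quadratic twists
`y ^ 2 + x y = x ^ 3 + a x ^ 2 + b`, `a` a polynomial, of a curve over `k(t)` in characteristic two.
-/

namespace Pool.Agent.Results.MP_788af2_nt.AnalyticGoldfeld

open Polynomial Filter Topology

variable {k : Type} [Field k] [Fintype k]

/-- The number of solutions `(t, x, y)` of `y ^ 2 + x y = x ^ 3 + a (t) x ^ 2 + b (t)` in the
extension of `k` of degree `n`. -/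
noncomputable def npts (a b : k[X]) (n : ℕ) : ℕ :=
  Set.ncard {p : AlgebraicClosure k × AlgebraicClosure k × AlgebraicClosure k |
    p.1 ^ Fintype.card k ^ n = p.1 ∧ p.2.1 ^ Fintype.card k ^ n = p.2.1 ∧
    p.2.2 ^ Fintype.card k ^ n = p.2.2 ∧
    p.2.2 ^ 2 + p.2.1 * p.2.2 = p.2.1 ^ 3 + aeval p.1 a * p.2.1 ^ 2 + aeval p.1 b}

/-- The sum over `t` in the extension of degree `n` of the traces of Frobenius of the fibres. -/
noncomputable def frobSum (a b : k[X]) (n : ℕ) : ℤ :=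
  (Fintype.card k : ℤ) ^ (2 * n) - npts a b n

/-- `L = exp (∑ n ≥ 1, frobSum a b n * T ^ n / n)`. -/
def IsL (a b : k[X]) (L : PowerSeries ℚ) : Prop :=
  PowerSeries.constantCoeff L = 1 ∧
    PowerSeries.derivative ℚ L = PowerSeries.mk (fun n => (frobSum a b (n + 1) : ℚ)) * L

/-- The power series `L` is a rational function that vanishes to order exactly `r` at `1 / q`. -/
def HasOrd (q : ℕ) (L : PowerSeries ℚ) (r : ℕ) : Prop :=
  ∃ P Q : ℚ[X], P.eval (1 / q : ℚ) ≠ 0 ∧ Q.eval (1 / q : ℚ) ≠ 0 ∧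
    (Q : PowerSeries ℚ) * L = ((1 - C (q : ℚ) * X) ^ r * P : ℚ[X])

/-- The analytic rank (infinite if there is no order of vanishing). -/
noncomputable def ark (a b : k[X]) : ℕ∞ :=
  ⨅ (r : ℕ) (_ : ∃ L, IsL a b L ∧ HasOrd (Fintype.card k) L r), (r : ℕ∞)

theorem result (k : Type) [Field k] [Fintype k] [CharP k 2] (b : k[X]) (hb : 0 < b.natDegree)
    (φ : ℕ∞ → ℝ) :
    Tendsto (fun N : ℕ => (∑ᶠ a ∈ {a : k[X] | a.natDegree ≤ N}, φ (ark a b)) /
      Set.ncard {a : k[X] | a.natDegree ≤ N}) atTop (𝓝 ((φ 0 + φ 1) / 2)) :=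
  Pool.Agent.Lib.MP_788af2_nt.AG.final (AlgebraicClosure k) hb φ

end Pool.Agent.Results.MP_788af2_nt.AnalyticGoldfeld
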