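import Pool.Agent.Lib.MP_788af2_nt.TT.Main2

/-!
Let `k` be a finite field of characteristic two. The curves `y ^ 2 + x y = x ^ 3 + a x ^ 2 + b x`
over `k(t)`, the pair `(a, b)` running over the polynomials with `deg a ≤ N`, `deg b ≤ 2 N` and
`b ≠ 0`, have average of `rank ^ m` at most `1 / 2 + ε` for large `N`.
-/

namespace Pool.Agent.Results.MP_788af2_nt.HeightAvgHalf

open Polynomial

theorem result (k : Type) [Field k] [Finite k] [CharP k 2] [DecidableEq (RatFunc k)]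
    (m : ℕ) (hm : 1 ≤ m) (ε : ℝ) (hε : 0 < ε) :
    ∃ N₀ : ℕ, ∀ N, N₀ ≤ N → ∃ A : Finset (k[X] × k[X]), A.Nonempty ∧
      (∀ p, p ∈ A ↔ p.1.natDegree ≤ N ∧ p.2.natDegree ≤ 2 * N ∧ p.2 ≠ 0) ∧
      (∀ p ∈ A, AddGroup.FG (WeierstrassCurve.Affine.Point
        (⟨1, algebraMap k[X] (RatFunc k) p.1, 0, algebraMap k[X] (RatFunc k) p.2, 0⟩ :
          WeierstrassCurve (RatFunc k)).toAffine)) ∧
      ∑ p ∈ A, (Module.finrank ℤ (WeierstrassCurve.Affine.Point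
        (⟨1, algebraMap k[X] (RatFunc k) p.1, 0, algebraMap k[X] (RatFunc k) p.2, 0⟩ :
          WeierstrassCurve (RatFunc k)).toAffine) : ℝ) ^ m ≤ (1 / 2 + ε) * A.card :=
  Pool.Agent.Lib.MP_788af2_nt.AS.main2 m hm ε hε

end Pool.Agent.Results.MP_788af2_nt.HeightAvgHalf
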