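import Pool.Agent.Lib.MP_788af2_nt.R0.Final

/-!
A positive proportion of the elliptic curves over the rationals with full rational 2-torsion,
ordered by naive height, have rank zero.
-/

namespace Pool.Agent.Results.MP_788af2_nt.RankZeroFullTwo

open Pool.Agent.Lib.MP_788af2_nt

theorem result :
    ∃ C : ℕ, ∀ᶠ X : ℕ in Filter.atTop, ∃ S T : Finset (ℤ × ℤ),
      (∀ A B : ℤ, (A, B) ∈ S ↔
        4 * A ^ 3 + 27 * B ^ 2 ≠ 0 ∧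
        (∀ p : ℕ, p.Prime → ¬((p : ℤ) ^ 4 ∣ A ∧ (p : ℤ) ^ 6 ∣ B)) ∧
        max (4 * |A| ^ 3) (27 * B ^ 2) ≤ (X : ℤ) ∧
        ∃ f : ZMod 2 × ZMod 2 →+
            (⟨0, 0, 0, (A : ℚ), (B : ℚ)⟩ : WeierstrassCurve ℚ).toAffine.Point,
          Function.Injective f) ∧
      S.Nonempty ∧ T ⊆ S ∧
      (∀ x ∈ T, Module.rank ℤ
        (⟨0, 0, 0, (x.1 : ℚ), (x.2 : ℚ)⟩ : WeierstrassCurve ℚ).toAffine.Point = 0) ∧
      S.card ≤ C * T.card := by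
  obtain ⟨C, hC⟩ := R0.final
  exact ⟨C, hC.mono fun X ⟨h1, T, h2, h3, h4⟩ =>
    ⟨SX 2 2 X, T, fun A B => mem_SX, h1, h2, h3, h4⟩⟩

end Pool.Agent.Results.MP_788af2_nt.RankZeroFullTwo
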