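import Pool.Agent.Lib.MP_788af2_nt.Families

/-!
The upper average rank is finite, unconditionally, in each family of elliptic curves over the
rationals (ordered by naive height) whose Mordell-Weil group contains a fixed group `G` of
Mazur's list with `4 ∣ #G`.
-/

namespace Pool.Agent.Results.MP_788af2_nt.TorsionAvgRank

open Pool.Agent.Lib.MP_788af2_nt

theorem result (a b : ℕ)
    (hab : (a, b) ∈ ({(1, 4), (1, 8), (1, 12), (2, 2), (2, 4), (2, 6), (2, 8)} : Set (ℕ × ℕ))) :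
    ∃ C : ℕ, ∀ᶠ X : ℕ in Filter.atTop, ∃ S : Finset (ℤ × ℤ),
      (∀ A B : ℤ, (A, B) ∈ S ↔
        4 * A ^ 3 + 27 * B ^ 2 ≠ 0 ∧
        (∀ p : ℕ, p.Prime → ¬((p : ℤ) ^ 4 ∣ A ∧ (p : ℤ) ^ 6 ∣ B)) ∧
        max (4 * |A| ^ 3) (27 * B ^ 2) ≤ (X : ℤ) ∧
        ∃ f : ZMod a × ZMod b →+
            (⟨0, 0, 0, (A : ℚ), (B : ℚ)⟩ : WeierstrassCurve ℚ).toAffine.Point,
          Function.Injective f) ∧
      S.Nonempty ∧
      ∑ x ∈ S, Module.rank ℤ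
          (⟨0, 0, 0, (x.1 : ℚ), (x.2 : ℚ)⟩ : WeierstrassCurve ℚ).toAffine.Point ≤
        (C : Cardinal) * (S.card : Cardinal) := by
  have key : ∃ C : ℕ, ∀ᶠ X : ℕ in Filter.atTop, (SX a b X).Nonempty ∧
      ∑ x ∈ SX a b X, Module.rank ℤ (cv 0 x.1 x.2).Point ≤ C * (SX a b X).card := by
    simp only [Set.mem_insert_iff, Set.mem_singleton_iff, Prod.mk.injEq] at hab
    rcases hab with ⟨rfl, rfl⟩ | ⟨rfl, rfl⟩ | ⟨rfl, rfl⟩ | ⟨rfl, rfl⟩ | ⟨rfl, rfl⟩ | ⟨rfl, rfl⟩ |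
      ⟨rfl, rfl⟩
    exacts [param4.bound, param8.bound, param12.bound, param22.bound, param24.bound,
      param26.bound, param28.bound]
  obtain ⟨C, hC⟩ := key
  exact ⟨C, hC.mono fun X h => ⟨SX a b X, fun A B => mem_SX, h⟩⟩

end Pool.Agent.Results.MP_788af2_nt.TorsionAvgRank
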